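import Pool.Agent.LibCSA98.Amen
import Pool.Agent.LibTA98.Final

set_option autoImplicit false

namespace Pool.Agent.Results.MP_95ce84_an.AmenableGroups

open Pool.Agent.LibCS15 Pool.Agent.LibCSA98

/-- Let `G` be a countable group which is amenable and MF, or which has a solvable subgroup of finite index.
If `G` is `C*`-stable (the full group `C*`-algebra of `G` is semiprojective) then some cyclic subgroup of `G` has finite index. -/
theorem result (G : Type) [Group G] [Countable G]
    (h : (Folner G ∧ MF G) ∨ ∃ S : Subgroup G, S.FiniteIndex ∧ Group.IsSolvable S)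
    (hG : CStarStable G) : ∃ z : G, (Subgroup.zpowers z).FiniteIndex := by
  rcases h with ⟨hF, hMF⟩ | ⟨S, hS, hS'⟩
  · exact main_va hG hMF hF (Pool.Agent.LibTA98.va_of_reiter (reiter_of_folner hF))
  · haveI := hS
    exact Pool.Agent.LibCS44.virt_cyclic hG S hS'

end Pool.Agent.Results.MP_95ce84_an.AmenableGroups
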