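import Pool.Agent.LibCSF44.FinDefs

/-!
# Finite generation of `C*`-stable groups

Let `G` be a countable `C*`-stable group.  There is a finitely generated subgroup `H` of `G` with `H [G, G] = G` which controls the finitely generated
subgroups of `G` with finite abelianization, the subgroups with property (T) and the traces of the elements of finite order.  If `G` is a free product, a restricted
direct product or a graph product of finitely generated groups, then `G` is finitely generated.
-/

set_option autoImplicit false

namespace Pool.Agent.Results.MP_95ce84_an.FiniteGeneration

open Pool.Agent.LibCS15 Pool.Agent.LibCSF44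

/-- Let `G` be a countable `C*`-stable group.  There is a finitely generated subgroup `H` such that
* `H [G, G] = G`;
* every finitely generated subgroup `P` with finite abelianization is contained in the normal closure of `⟨⟨P⟩⟩ ∩ H`;
* for every subgroup `P` with property (T) some conjugate of `H` intersects `P` in a subgroup of finite index of `P`;
* traces of elements of finite order in unitary representations of `G` in `C*`-algebras depend only on the restriction to `H`.

If `G` is generated by finitely generated subgroups `K i` such that for every finite set `S` of indices some endomorphism of `G` is the identity on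
`K i` for `i ∈ S` and trivial on `K i` for `i ∉ S`, then `G` is finitely generated. -/
theorem result : ∀ (G : Type) [Group G] [Countable G], CStarStable G →
    (∃ H : Subgroup G, H.FG ∧ H ⊔ commutator G = ⊤ ∧ ControlsFiniteAb H ∧ ControlsKazhdan H ∧
      ControlsTraces H) ∧
    ∀ (ι : Type) (K : ι → Subgroup G), ProductLike K → Group.FG G := by
  intro G _ _ hG
  obtain ⟨H, hH, hab, hP, hT, hτ⟩ := fin_gen hG
  exact ⟨⟨H, hH, hab, hP, fun P h => hT P (propertyT_of_kazhdanT h), controlsTraces_of hτ⟩,
    fun ι K ⟨hK, htop, hr⟩ => fg_of_retracts H hH hab hP ι K hK htop hr⟩

end Pool.Agent.Results.MP_95ce84_an.FiniteGeneration
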