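import Pool.Agent.LibCSF44.RankOne
import Pool.Agent.LibCSA98.VaImages
import Pool.Agent.LibTA98.Final

/-!
# A first homology obstruction to `C*`-stability

Let `G` be a countable `C*`-stable group, `H ≤ G` a subgroup of finite index and `N ≤ G` a subgroup which is amenable, or at least
has amenable image under every finite-dimensional unitary representation of `G`.  Then the image of `N ∩ H` in `H₁(H; ℝ)` has
dimension at most one: any two homomorphisms `H → ℝ` are proportional on `N ∩ H`.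
-/

set_option autoImplicit false

namespace Pool.Agent.Results.MP_95ce84_an.RankOne

open Pool.Agent.LibCS15 Pool.Agent.LibCSA98
open scoped Matrix.Norms.L2Operator

theorem result : ∀ (G : Type) [Group G] [Countable G], CStarStable G →
    ∀ (H : Subgroup G) [H.FiniteIndex] (N : Subgroup G),
      (Reiter N ∨ ∀ (d : ℕ) (σ : G →* unitary (Matrix (Fin d) (Fin d) ℂ)), Reiter (N.map σ)) →
      ∀ b₁ b₂ : H → ℝ, (∀ g h, b₁ (g * h) = b₁ g + b₁ h) → (∀ g h, b₂ (g * h) = b₂ g + b₂ h) →
        ∀ x y : H, (x : G) ∈ N → (y : G) ∈ N → b₁ x * b₂ y = b₁ y * b₂ x := by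
  intro G _ _ hG H _ N hN b₁ b₂ hb₁ hb₂ x y hx hy
  refine Pool.Agent.LibCSF44.rank_one_fd hG H N (fun d σ a b ha hb h1 h2 => ?_) b₁ b₂ hb₁ hb₂ x y hx hy
  rcases hN with hN | hN
  · exact near_commute_of_va (Pool.Agent.LibTA98.va_of_reiter hN) (Fin d) (σ.comp N.subtype)
      ⟨a, ha⟩ ⟨b, hb⟩ h1 h2
  · have h3 := near_commute_of_va (Pool.Agent.LibTA98.va_of_reiter (hN d σ)) (Fin d)
      (N.map σ).subtype ⟨σ a, a, ha, rfl⟩ ⟨σ b, b, hb, rfl⟩ h1 h2
    exact h3

end Pool.Agent.Results.MP_95ce84_an.RankOne
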