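import Pool.Agent.LibCS15.Hom2Real
import Pool.Agent.LibCSF44.Unip

/-!
# The second real cohomology and the first homology of `C*`-stable groups

Let `G` be a countable `C*`-stable group.  Every real 2-cocycle (trivial coefficients) of `G` is a coboundary.  Elements of `G` whose images
in `H₁(G; ℝ)` are linearly independent freely generate a free group, and every assignment of real unitriangular matrices to such elements
extends to a homomorphism from `G` to the unitriangular group.
-/

set_option autoImplicit false

namespace Pool.Agent.Results.MP_95ce84_an.SecondCohomology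

open Pool.Agent.LibCS15 Pool.Agent.LibCSF44

/-- Let `G` be a countable `C*`-stable group.  Every real 2-cocycle is a coboundary; if no nontrivial linear combination of `x₁, …, x_r`
is killed by all homomorphisms `G → ℝ`, then `x₁, …, x_r` freely generate a free group and every assignment of real unitriangular
`n × n` matrices to the `x_i` extends to a homomorphism from `G` to the group of real unitriangular `n × n` matrices. -/
theorem result : ∀ (G : Type) [Group G] [Countable G], CStarStable G →
    (∀ w : G → G → ℝ, (∀ g h k, w g h + w (g * h) k = w h k + w g (h * k)) →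
      ∃ c : G → ℝ, ∀ g h, w g h = c g + c h - c (g * h)) ∧
    ∀ (r : ℕ) (x : Fin r → G),
      (∀ t : Fin r → ℝ, (∀ b : G → ℝ, (∀ g h, b (g * h) = b g + b h) →
        ∑ i, t i * b (x i) = 0) → t = 0) →
      Function.Injective (FreeGroup.lift x) ∧
      ∀ (n : ℕ) (u : Fin r → Matrix (Fin n) (Fin n) ℝ),
        (∀ i, (∀ a, u i a a = 1) ∧ ∀ a b, b < a → u i a b = 0) →
        ∃ f : G →* Matrix (Fin n) (Fin n) ℝ,
          (∀ g, (∀ a, f g a a = 1) ∧ ∀ a b, b < a → f g a b = 0) ∧ ∀ i, f (x i) = u i := by
  intro G _ _ hG
  refine ⟨fun w hw => H2_real hG w hw, fun r x hx => ⟨?_, fun n u hu => ?_⟩⟩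
  · exact free_of_independent (fun w hw => H2_real hG w hw) x hx
  · exact unipotent_extension (fun w hw => H2_real hG w hw) x hx n u hu

end Pool.Agent.Results.MP_95ce84_an.SecondCohomology
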